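import Pool.Agent.Y557.U.AbK
import Pool.Agent.Y557.NF.Mason
import Pool.Agent.TH402.AK.Count

/-!
# The abc inequality over the Gaussian integers on all split thin sets at once

Consider all maps `t ↦ (P 0 (t) : P 1 (t) : P 2 (t))` of degree `D` from the projective line to the
line `a + b = c`, with Gaussian integer coefficients of absolute value at most `X ^ η`, all of whose
`q` points over the three points with `abc = 0` are defined over `ℚ(i)`. The triples `a + b = c` of
coprime Gaussian integers in the images of `ℙ¹(ℚ(i))`, of all sizes, are ordered by their radical.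
One exceptional set, smaller by a power of `X` than the set of the triples with `rad(abc) ≤ X` in
each single image, serves all maps: all other triples satisfy
`max {|a|, |b|, |c|} < c rad(abc) ^ M` for every `M > D / q`, where `D / q ≤ 1 - 2 / q < 1`.
-/

set_option autoImplicit false

namespace Pool.Agent.Results.MP_dc323a_nt.AllThinSetsAtOnce

open Polynomial

/-- the field of fractions `ℚ(i)` of the Gaussian integers -/
abbrev Qi : Type := FractionRing GaussianInt

/-- `max {|a|, |b|, |a + b|}` -/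
noncomputable def size (a b : GaussianInt) : ℝ :=
  max ‖GaussianInt.toComplex a‖ (max ‖GaussianInt.toComplex b‖ ‖GaussianInt.toComplex (a + b)‖)

/-- `rad(n)`: the product of `|Q|` over the Gaussian primes `Q` dividing `n`, one from each class of
associates, namely the one with `Re Q > 0` and `Im Q ≥ 0` -/
noncomputable def rad (n : GaussianInt) : ℝ :=
  ∏ᶠ Q ∈ {Q : GaussianInt | Prime Q ∧ Q ∣ n ∧ (0 < Q.re ∧ 0 ≤ Q.im)}, ‖GaussianInt.toComplex Q‖

/-- `P i` as a polynomial over `ℚ(i)` -/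
noncomputable def toQi (P : GaussianInt[X]) : Qi[X] := P.map (algebraMap GaussianInt Qi)

open Classical in
/-- the number of the different points `t` of the projective line over `ℚ(i)` with
`P 0 (t) P 1 (t) P 2 (t) = 0` (infinity is one of them if some `P i` has degree less than `D`) -/
noncomputable def zeros (D : ℕ) (P : Fin 3 → GaussianInt[X]) : ℕ :=
  (∏ i, toQi (P i)).roots.toFinset.card + if ∃ i, (P i).natDegree < D then 1 else 0

/-- the values of the `P i` at `t`; at infinity, which is `none`, their coefficients of degree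
`D` -/
noncomputable def coordinates (D : ℕ) (P : Fin 3 → GaussianInt[X]) : Option Qi → Fin 3 → Qi
  | some t => fun i => (toQi (P i)).eval t
  | none => fun i => (toQi (P i)).coeff D

/-- a map `t ↦ (P 0 (t), P 1 (t), P 2 (t))` of degree `D` to the solutions of `a + b = c`, given by
polynomials with Gaussian integer coefficients of absolute value at most `H`, coprime over `ℚ(i)`,
all of whose zeros are in `ℚ(i)`; `q` is the number of the points `t` with `abc = 0` -/
structure Curve (D q : ℕ) (H : ℝ) (P : Fin 3 → GaussianInt[X]) : Prop where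
  ne_zero : ∀ i, P i ≠ 0
  sum_eq : P 0 + P 1 = P 2
  coprime : IsCoprime (toQi (P 0)) (toQi (P 1))
  splits : ∀ i, (toQi (P i)).Splits
  degree_le : ∀ i, (P i).natDegree ≤ D
  degree_eq : ∃ i, (P i).natDegree = D
  points : zeros D P = q
  small : ∀ i k, ‖GaussianInt.toComplex ((P i).coeff k)‖ ≤ H

/-- the pairs `(a, b)` of coprime Gaussian integers with `a b c ≠ 0`, where `c = a + b` -/
def Triples : Set (GaussianInt × GaussianInt) :=
  {p | p.1 ≠ 0 ∧ p.2 ≠ 0 ∧ p.1 + p.2 ≠ 0 ∧ IsCoprime p.1 p.2}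

/-- those for which `(a, b, c)` is proportional to `(P 0 (t), P 1 (t), P 2 (t))` for some point `t`
of the projective line over `ℚ(i)` -/
def OnCurve (D : ℕ) (P : Fin 3 → GaussianInt[X]) : Set (GaussianInt × GaussianInt) :=
  {p | p ∈ Triples ∧ ∃ (t : Option Qi) (s : Qi),
    algebraMap GaussianInt Qi p.1 = s * coordinates D P t 0 ∧
    algebraMap GaussianInt Qi p.2 = s * coordinates D P t 1}

/-- those with `rad(abc) ≤ X`; there is no condition on the size -/
def ByRadical (D : ℕ) (P : Fin 3 → GaussianInt[X]) (X : ℝ) : Set (GaussianInt × GaussianInt) :=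
  {p | p ∈ OnCurve D P ∧ rad (p.1 * p.2 * (p.1 + p.2)) ≤ X}

/-- the union of these sets over all curves with coefficients at most `X ^ η` -/
def AllByRadical (D q : ℕ) (η X : ℝ) : Set (GaussianInt × GaussianInt) :=
  {p | ∃ P : Fin 3 → GaussianInt[X], Curve D q (X ^ η) P ∧ p ∈ ByRadical D P X}

/-- the triples in this union which violate `max {|a|, |b|, |c|} < C rad(abc) ^ M` -/
def Exceptions (D q : ℕ) (η M C X : ℝ) : Set (GaussianInt × GaussianInt) :=
  {p | p ∈ AllByRadical D q η X ∧ C * rad (p.1 * p.2 * (p.1 + p.2)) ^ M ≤ size p.1 p.2}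


open NumberField IsDedekindDomain Polynomial
open Pool.Agent.TH402.AK (K4 emb emb_inj e e_coe place_e finrank4 sum_mult GTri phi card_le_four
  coe_ne rad_sq rad_pos)
open Pool.Agent.Y557.U
open Pool.Agent.TH876.TM (supp)
open Pool.Agent.TH876.Loc (Pr nn)
open Pool.Agent.H691R3 (fv Nv fv_support_finite)

/-! ### Heights of vectors of Gaussian integers -/

theorem dgr4 : dgr K4 = 2 := by
  unfold dgr
  rw [finrank4]
  norm_num

theorem emb_ne {z : GaussianInt} (h : z ≠ 0) : emb z ≠ 0 := fun h' =>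
  h (emb_inj (h'.trans (map_zero emb).symm))

theorem one_le_norm {z : GaussianInt} (hz : z ≠ 0) : 1 ≤ ‖GaussianInt.toComplex z‖ := by
  have h2 : 0 < z.norm := GaussianInt.norm_pos.2 hz
  have h3 : ((z.norm : ℤ) : ℝ) = ‖GaussianInt.toComplex z‖ ^ 2 := by
    have h4 := GaussianInt.intCast_real_norm z
    rw [h4, Complex.normSq_eq_norm_sq]
  have h5 : (1 : ℝ) ≤ ‖GaussianInt.toComplex z‖ ^ 2 := by
    rw [← h3]
    exact_mod_cast h2
  nlinarith [norm_nonneg (GaussianInt.toComplex z)]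

theorem place_emb (w : InfinitePlace K4) (z : GaussianInt) :
    w (emb z) = ‖GaussianInt.toComplex z‖ := place_e w z

theorem height_aux {ι : Type} [Fintype ι] (y : ι → GaussianInt) (hy : y ≠ 0) :
    ∃ F : ℝ, 0 ≤ F ∧ Height.mulHeight (fun i => emb (y i)) =
      (⨆ i, ‖GaussianInt.toComplex (y i)‖) ^ 2 * F ∧
    ((Ideal.span (Set.range fun i => e (y i))).absNorm : ℝ) * F = 1 := by
  obtain ⟨i0, hi0⟩ := Function.ne_iff.1 hy
  have hx : (fun i => emb (y i)) ≠ 0 := Function.ne_iff.2 ⟨i0, emb_ne hi0⟩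
  have hx' : (fun i => e (y i)) ≠ 0 := Function.ne_iff.2
    ⟨i0, (map_ne_zero_iff e e.injective).2 hi0⟩
  refine ⟨∏ᶠ v : FinitePlace K4, ⨆ i, v (emb (y i)),
    finprod_nonneg fun _ => Real.iSup_nonneg fun _ => apply_nonneg _ _, ?_, ?_⟩
  · rw [NumberField.mulHeight_eq hx]
    congr 1
    simp only [place_emb]
    rw [Finset.prod_pow_eq_pow_sum, sum_mult]
  · exact NumberField.absNorm_mul_finprod_finitePlace_eq_one hx'

theorem sup_pos {ι : Type} [Fintype ι] {y : ι → GaussianInt} (hy : y ≠ 0) :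
    1 ≤ ⨆ i, ‖GaussianInt.toComplex (y i)‖ := by
  obtain ⟨i0, hi0⟩ := Function.ne_iff.1 hy
  exact (one_le_norm hi0).trans
    (le_ciSup (f := fun i => ‖GaussianInt.toComplex (y i)‖) (Set.finite_range _).bddAbove i0)

theorem ht_le {ι : Type} [Fintype ι] {y : ι → GaussianInt} (hy : y ≠ 0) {H : ℝ}
    (h : ∀ i, ‖GaussianInt.toComplex (y i)‖ ≤ H) : ht (fun i => emb (y i)) ≤ Real.log H := by
  obtain ⟨F, h0, h1, h2⟩ := height_aux y hy
  obtain ⟨i0, hi0⟩ := Function.ne_iff.1 hy
  have hne : Nonempty ι := ⟨i0⟩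
  have hS := sup_pos hy
  have hSH : (⨆ i, ‖GaussianInt.toComplex (y i)‖) ≤ H := ciSup_le h
  set S := ⨆ i, ‖GaussianInt.toComplex (y i)‖
  set N := (Ideal.span (Set.range fun i => e (y i))).absNorm
  have hN : (1 : ℝ) ≤ (N : ℝ) := by
    have : N ≠ 0 := fun h => by rw [h] at h2; simp at h2
    exact_mod_cast Nat.one_le_iff_ne_zero.2 this
  have hF1 : F ≤ 1 := by nlinarith
  have hF0 : 0 < F := by
    rcases h0.lt_or_eq with h | h
    · exact h
    · rw [← h, mul_zero] at h2
      exact absurd h2 (by norm_num)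
  unfold ht
  rw [dgr4, div_le_iff₀ (by norm_num : (0 : ℝ) < 2), Height.logHeight, h1]
  have h3 : S ^ 2 * F ≤ H ^ 2 := by
    calc S ^ 2 * F ≤ S ^ 2 * 1 := mul_le_mul_of_nonneg_left hF1 (by positivity)
      _ ≤ H ^ 2 := by rw [mul_one]; exact pow_le_pow_left₀ (by linarith) hSH 2
  have h4 := Real.log_le_log (by positivity) h3
  rw [Real.log_pow] at h4
  push_cast at h4
  linarith

theorem ht_eq {ι : Type} [Fintype ι] {y : ι → GaussianInt} (hy : y ≠ 0)
    (h : Ideal.span (Set.range fun i => e (y i)) = ⊤) :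
    ht (fun i => emb (y i)) = Real.log (⨆ i, ‖GaussianInt.toComplex (y i)‖) := by
  obtain ⟨F, h0, h1, h2⟩ := height_aux y hy
  rw [h, Ideal.absNorm_top, Nat.cast_one, one_mul] at h2
  unfold ht
  rw [dgr4, Height.logHeight, h1, h2, mul_one, Real.log_pow]
  push_cast
  ring

/-! ### The vector of a triple -/

/-- the triple as a vector -/
def tri (p : GaussianInt × GaussianInt) : Fin 3 → GaussianInt := ![p.1, p.2, p.1 + p.2]

/-- the triple as a vector in `K4` -/
noncomputable def vec (p : GaussianInt × GaussianInt) : Fin 3 → K4 := fun i => emb (tri p i)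

theorem tri_ne {p : GaussianInt × GaussianInt} (h : p ∈ Triples) (i : Fin 3) : tri p i ≠ 0 := by
  obtain ⟨h1, h2, h3, -⟩ := h
  fin_cases i
  · exact h1
  · exact h2
  · exact h3

theorem tri_ne' {p : GaussianInt × GaussianInt} (h : p ∈ Triples) : tri p ≠ 0 := fun h' =>
  tri_ne h 0 (congrFun h' 0)

theorem vec_ne {p : GaussianInt × GaussianInt} (h : p ∈ Triples) (i : Fin 3) : vec p i ≠ 0 :=
  emb_ne (tri_ne h i)

theorem vec_ne' {p : GaussianInt × GaussianInt} (h : p ∈ Triples) : vec p ≠ 0 := fun h' =>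
  vec_ne h 0 (congrFun h' 0)

theorem sup_tri (p : GaussianInt × GaussianInt) :
    (⨆ i, ‖GaussianInt.toComplex (tri p i)‖) = size p.1 p.2 := by
  have hb : BddAbove (Set.range fun i => ‖GaussianInt.toComplex (tri p i)‖) :=
    (Set.finite_range _).bddAbove
  unfold size
  refine le_antisymm (ciSup_le fun i => ?_) (max_le ?_ (max_le ?_ ?_))
  · fin_cases i
    · exact le_max_left _ _
    · exact (le_max_left _ _).trans (le_max_right _ _)
    · exact (le_max_right _ _).trans (le_max_right _ _)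
  · exact le_ciSup hb 0
  · exact le_ciSup hb 1
  · exact le_ciSup hb 2

theorem ht_vec {p : GaussianInt × GaussianInt} (h : p ∈ Triples) :
    ht (vec p) = Real.log (size p.1 p.2) := by
  rw [← sup_tri]
  refine ht_eq (tri_ne' h) ?_
  obtain ⟨a, b, hab⟩ := h.2.2.2
  rw [Ideal.eq_top_iff_one]
  have h1 : (1 : 𝓞 K4) = e a * e (tri p 0) + e b * e (tri p 1) := by
    rw [← map_mul, ← map_mul, ← map_add]
    show 1 = e (a * p.1 + b * p.2)
    rw [hab, map_one]
  rw [h1]
  exact Ideal.add_mem _ (Ideal.mul_mem_left _ _ (Ideal.subset_span ⟨0, rfl⟩))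
    (Ideal.mul_mem_left _ _ (Ideal.subset_span ⟨1, rfl⟩))

theorem val_eq_one (v : Pr K4) (z : GaussianInt) :
    v.valuation K4 (emb z) = 1 ↔ e z ∉ v.asIdeal := by
  have h1 : v.valuation K4 (emb z) ≤ 1 := v.valuation_le_one (e z)
  have h2 : v.valuation K4 (emb z) < 1 ↔ e z ∈ v.asIdeal := v.valuation_lt_one_iff_mem (e z)
  rw [← h2, not_lt]
  exact ⟨fun h => h.ge, fun h => le_antisymm h1 h⟩

theorem mem_supp_vec {p : GaussianInt × GaussianInt} (h : p ∈ Triples) (v : Pr K4) :
    v ∈ supp (vec p) ↔ e (p.1 * p.2 * (p.1 + p.2)) ∈ v.asIdeal := by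
  have hp := v.isPrime
  rw [map_mul, map_mul, hp.mul_mem_iff_mem_or_mem, hp.mul_mem_iff_mem_or_mem]
  constructor
  · rintro ⟨i, j, hij⟩
    by_contra hcon
    push Not at hcon
    have h1 : ∀ i, v.valuation K4 (vec p i) = 1 := by
      intro i
      refine (val_eq_one v _).2 ?_
      fin_cases i
      · exact hcon.1.1
      · exact hcon.1.2
      · exact hcon.2
    exact hij (by rw [h1, h1])
  · intro h1
    by_contra hcon
    have h2 : ∀ i j, v.valuation K4 (vec p i) = v.valuation K4 (vec p j) := by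
      intro i j
      by_contra h'
      exact hcon ⟨i, j, h'⟩
    have h3 : ∀ i j, e (tri p i) ∈ v.asIdeal → e (tri p j) ∈ v.asIdeal := by
      intro i j hi
      by_contra hj
      have h4 := (val_eq_one v _).2 hj
      have h5 : v.valuation K4 (emb (tri p i)) = 1 := (h2 i j).trans h4
      exact (val_eq_one v _).1 h5 hi
    have h6 : ∃ i, e (tri p i) ∈ v.asIdeal := by
      rcases h1 with (h1 | h1) | h1
      · exact ⟨0, h1⟩
      · exact ⟨1, h1⟩
      · exact ⟨2, h1⟩
    obtain ⟨i, hi⟩ := h6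
    obtain ⟨a, b, hab⟩ := h.2.2.2
    apply hp.ne_top
    rw [Ideal.eq_top_iff_one]
    have h7 : (1 : 𝓞 K4) = e a * e (tri p 0) + e b * e (tri p 1) := by
      rw [← map_mul, ← map_mul, ← map_add]
      show 1 = e (a * p.1 + b * p.2)
      rw [hab, map_one]
    rw [h7]
    exact Ideal.add_mem _ (Ideal.mul_mem_left _ _ (h3 i 0 hi)) (Ideal.mul_mem_left _ _ (h3 i 1 hi))

theorem rad_nonneg (n : GaussianInt) : 0 ≤ rad n := rad_pos n

theorem log_nn {T : Finset (Pr K4)} : Real.log (nn T) = ∑ v ∈ T, Real.log (Nv v) := by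
  unfold nn
  refine Real.log_prod fun v _ => ?_
  unfold Nv
  exact_mod_cast fun h => v.ne_bot (Ideal.absNorm_eq_zero_iff.1 h)

theorem one_le_rad {p : GaussianInt × GaussianInt} (h : p ∈ Triples) :
    1 ≤ rad (p.1 * p.2 * (p.1 + p.2)) := by
  classical
  have h0 : ((e (p.1 * p.2 * (p.1 + p.2)) : 𝓞 K4) : K4) ≠ 0 := coe_ne
    ((map_ne_zero_iff e e.injective).2 (mul_ne_zero (mul_ne_zero h.1 h.2.1) h.2.2.1))
  have h1 := fv_support_finite h0
  have h2 := rad_sq (n := p.1 * p.2 * (p.1 + p.2)) h1.toFinset (fun v => by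
    rw [Set.Finite.mem_toFinset, Set.mem_ofPred_eq, ← not_iff_not, not_not]
    exact Pool.Agent.TH402.AK.fv_eq_one_iff v _)
  have h3 : (1 : ℝ) ≤ nn h1.toFinset := by
    unfold nn
    refine Finset.prod_induction _ (fun x => (1 : ℝ) ≤ x)
      (fun a b ha hb => one_le_mul_of_one_le_of_one_le ha hb) le_rfl fun v _ => ?_
    unfold Nv
    exact_mod_cast Nat.one_le_iff_ne_zero.2 fun h => v.ne_bot (Ideal.absNorm_eq_zero_iff.1 h)
  have h4 : (1 : ℝ) ≤ rad (p.1 * p.2 * (p.1 + p.2)) ^ 2 := by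
    have h5 : rad (p.1 * p.2 * (p.1 + p.2)) ^ 2 = nn h1.toFinset := h2
    rw [h5]
    exact h3
  nlinarith [rad_nonneg (p.1 * p.2 * (p.1 + p.2))]

theorem rS_vec {p : GaussianInt × GaussianInt} (h : p ∈ Triples) :
    rS (((∅ : Finset (Pr K4)) : Set (Pr K4))) (vec p) =
      Real.log (rad (p.1 * p.2 * (p.1 + p.2))) := by
  classical
  have h0 : ((e (p.1 * p.2 * (p.1 + p.2)) : 𝓞 K4) : K4) ≠ 0 := coe_ne
    ((map_ne_zero_iff e e.injective).2 (mul_ne_zero (mul_ne_zero h.1 h.2.1) h.2.2.1))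
  have h1 := fv_support_finite h0
  have hT : ∀ v, v ∈ h1.toFinset ↔ e (p.1 * p.2 * (p.1 + p.2)) ∈ v.asIdeal := fun v => by
    rw [Set.Finite.mem_toFinset, Set.mem_ofPred_eq, ← not_iff_not, not_not]
    exact Pool.Agent.TH402.AK.fv_eq_one_iff v _
  have h2 : rad (p.1 * p.2 * (p.1 + p.2)) ^ 2 = nn h1.toFinset :=
    rad_sq (n := p.1 * p.2 * (p.1 + p.2)) h1.toFinset hT
  have h3 : {v : Pr K4 | v ∉ ((∅ : Finset (Pr K4)) : Set (Pr K4)) ∧ v ∈ supp (vec p)} =
      ((h1.toFinset : Finset (Pr K4)) : Set (Pr K4)) := by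
    ext v
    rw [Finset.mem_coe, hT v, ← mem_supp_vec h v]
    simp
  have h4 : 2 * Real.log (rad (p.1 * p.2 * (p.1 + p.2))) = ∑ v ∈ h1.toFinset, Real.log (Nv v) := by
    rw [← log_nn, ← h2, Real.log_pow]
    push_cast
    ring
  unfold rS
  rw [h3, finsum_mem_coe_finset, dgr4, div_eq_iff (by norm_num : (2 : ℝ) ≠ 0)]
  exact h4.symm.trans (mul_comm _ _)

theorem supp_smul {s : K4} (hs : s ≠ 0) (x : Fin 3 → K4) : supp (s • x) = supp x := by
  ext v
  unfold supp
  simp only [Set.mem_ofPred_eq, Pi.smul_apply, smul_eq_mul, map_mul]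
  have h : v.valuation K4 s ≠ 0 := (Valuation.ne_zero_iff _).2 hs
  constructor
  · rintro ⟨i, j, hij⟩
    exact ⟨i, j, fun h' => hij (by rw [h'])⟩
  · rintro ⟨i, j, hij⟩
    exact ⟨i, j, fun h' => hij (mul_left_cancel₀ h h')⟩

theorem rS_smul {s : K4} (hs : s ≠ 0) (S : Set (Pr K4)) (x : Fin 3 → K4) :
    rS S (s • x) = rS S x := by
  unfold rS
  rw [supp_smul hs]

theorem ht_smul {s : K4} (hs : s ≠ 0) (x : Fin 3 → K4) : ht (s • x) = ht x := by
  unfold ht
  rw [Height.logHeight_smul_eq_logHeight _ hs]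

end Pool.Agent.Results.MP_dc323a_nt.AllThinSetsAtOnce

namespace Pool.Agent.Results.MP_dc323a_nt.AllThinSetsAtOnce

open NumberField IsDedekindDomain Polynomial
open Pool.Agent.TH402.AK (K4 emb emb_inj e e_coe place_e finrank4 sum_mult GTri phi card_le_four
  coe_ne rad_sq rad_pos)
open Pool.Agent.Y557.U
open Pool.Agent.TH876.TM (supp)
open Pool.Agent.TH876.Loc (Pr nn)

/-! ### The fields `ℚ(i)` and the curves -/

/-- the isomorphism of the two models of `ℚ(i)` -/
noncomputable def io : Qi →+* K4 := IsFractionRing.lift (g := emb) emb_inj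

theorem io_alg (z : GaussianInt) : io (algebraMap GaussianInt Qi z) = emb z :=
  IsFractionRing.lift_algebraMap emb_inj z

theorem io_surj (x : K4) : ∃ y, io y = x := by
  obtain ⟨a, b, hb, h⟩ := IsFractionRing.div_surjective (A := 𝓞 K4) x
  refine ⟨algebraMap GaussianInt Qi (e.symm a) / algebraMap GaussianInt Qi (e.symm b), ?_⟩
  rw [map_div₀, io_alg, io_alg, ← e_coe, ← e_coe, e.apply_symm_apply, e.apply_symm_apply]
  exact h

theorem opt_surj (t : Option K4) : ∃ s : Option Qi, s.map io = t := by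
  cases t with
  | none => exact ⟨none, rfl⟩
  | some x =>
    obtain ⟨y, rfl⟩ := io_surj x
    exact ⟨some y, rfl⟩

/-- the curve over `K4` -/
noncomputable def cv (P : Fin 3 → GaussianInt[X]) : Fin 3 → K4[X] := fun i => (P i).map emb

theorem cv_eq (P : Fin 3 → GaussianInt[X]) (i : Fin 3) : cv P i = (toQi (P i)).map io := by
  unfold cv toQi
  rw [Polynomial.map_map]
  congr 1
  exact RingHom.ext fun z => (io_alg z).symm

theorem co_cv (D : ℕ) (P : Fin 3 → GaussianInt[X]) (t : Option Qi) :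
    co D (cv P) (t.map io) = fun i => io (coordinates D P t i) := by
  funext i
  cases t with
  | none =>
    show (cv P i).coeff D = io ((toQi (P i)).coeff D)
    rw [cv_eq, coeff_map]
  | some t =>
    show (cv P i).eval (io t) = io ((toQi (P i)).eval t)
    rw [cv_eq, eval_map, eval₂_at_apply]

theorem coord_sum {D : ℕ} {P : Fin 3 → GaussianInt[X]} (h : P 0 + P 1 = P 2) (t : Option Qi) :
    coordinates D P t 0 + coordinates D P t 1 = coordinates D P t 2 := by
  cases t with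
  | none =>
    show (toQi (P 0)).coeff D + (toQi (P 1)).coeff D = (toQi (P 2)).coeff D
    rw [← h, toQi, toQi, toQi, Polynomial.map_add, coeff_add]
  | some t =>
    show (toQi (P 0)).eval t + (toQi (P 1)).eval t = (toQi (P 2)).eval t
    rw [← h, toQi, toQi, toQi, Polynomial.map_add, eval_add]

theorem one_le_H {D q : ℕ} {H : ℝ} {P : Fin 3 → GaussianInt[X]} (h : Curve D q H P) : 1 ≤ H := by
  have h0 := h.ne_zero 0
  exact (one_le_norm (leadingCoeff_ne_zero.2 h0)).trans (h.small 0 _)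

theorem deg_cv (P : Fin 3 → GaussianInt[X]) (i : Fin 3) : (cv P i).natDegree = (P i).natDegree :=
  natDegree_map_eq_of_injective emb_inj _

theorem card_cv {D q : ℕ} {H : ℝ} {P : Fin 3 → GaussianInt[X]} (h : Curve D q H P) :
    zk D (cv P) = q := by
  classical
  rw [← h.points]
  unfold zk zeros
  have e1 : ∏ i, cv P i = (∏ i, toQi (P i)).map io := by
    rw [Polynomial.map_prod]
    exact Finset.prod_congr rfl fun i _ => cv_eq P i
  have e2 : (∏ i, cv P i).roots = (∏ i, toQi (P i)).roots.map io := by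
    rw [e1]
    exact (Polynomial.Splits.prod fun i _ => h.splits i).roots_map io
  have e3 : (∃ i, (cv P i).natDegree < D) ↔ ∃ i, (P i).natDegree < D := by
    simp only [deg_cv]
  refine congrArg₂ (· + ·) ?_ ?_
  · rw [e2, Multiset.toFinset_map, Finset.card_image_of_injective _ io.injective]
  · by_cases h1 : ∃ i, (P i).natDegree < D
    · rw [if_pos h1, if_pos (e3.2 h1)]
    · rw [if_neg h1, if_neg fun h2 => h1 (e3.1 h2)]

theorem ck {D q : ℕ} {H : ℝ} {P : Fin 3 → GaussianInt[X]} (h : Curve D q H P) :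
    Ck 3 D q (Real.log H) ∅ (cv P) := by
  refine ⟨fun i => (Polynomial.map_ne_zero_iff emb_inj).2 (h.ne_zero i), fun i => ?_, ?_,
    fun i => ?_, ?_, card_cv h, ?_, ?_⟩
  · rw [cv_eq]
    exact (h.splits i).map io
  · obtain ⟨a, b, hab⟩ := h.coprime
    refine ⟨![a.map io, b.map io, 0], ?_⟩
    rw [Fin.sum_univ_three]
    simp only [Matrix.cons_val_zero, Matrix.cons_val_one, Matrix.cons_val, zero_mul, add_zero]
    rw [cv_eq, cv_eq, ← Polynomial.map_mul, ← Polynomial.map_mul, ← Polynomial.map_add, hab,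
      Polynomial.map_one]
  · rw [deg_cv]
    exact h.degree_le i
  · obtain ⟨i, hi⟩ := h.degree_eq
    exact ⟨i, by rw [deg_cv]; exact hi⟩
  · rw [Finset.sum_empty, zero_div]
    exact Real.log_nonneg (one_le_H h)
  · have h1 : cf (cv P) D = fun p : Fin 3 × Fin (D + 1) => emb ((P p.1).coeff p.2) := by
      funext p
      show ((P p.1).map emb).coeff p.2 = _
      rw [coeff_map]
    rw [h1]
    refine ht_le (y := fun p : Fin 3 × Fin (D + 1) => (P p.1).coeff p.2) ?_
      (fun p => h.small p.1 p.2)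
    intro h2
    have h3 := congrFun h2 (0, ⟨(P 0).natDegree, by have := h.degree_le 0; omega⟩)
    exact leadingCoeff_ne_zero.2 (h.ne_zero 0) h3

/-! ### Points of the curves and triples -/

theorem onCurve_vec {D : ℕ} {P : Fin 3 → GaussianInt[X]} (hsum : P 0 + P 1 = P 2)
    {p : GaussianInt × GaussianInt} (h : p ∈ OnCurve D P) :
    ∃ (t : Option K4) (s : K4), s ≠ 0 ∧ vec p = s • co D (cv P) t := by
  obtain ⟨hT, t, s, h1, h2⟩ := h
  refine ⟨t.map io, io s, fun h0 => ?_, ?_⟩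
  · apply emb_ne hT.1
    rw [← io_alg, h1, map_mul, h0, zero_mul]
  · rw [co_cv]
    funext i
    show emb (tri p i) = io s * io (coordinates D P t i)
    rw [← map_mul, ← io_alg]
    congr 1
    fin_cases i
    · exact h1
    · exact h2
    · show algebraMap GaussianInt Qi (p.1 + p.2) = s * coordinates D P t 2
      rw [← coord_sum hsum t, map_add, h1, h2, mul_add]

/-- the point of a triple -/
def Rel (p : GaussianInt × GaussianInt) (Q : Projectivization K4 (Fin 3 → K4)) : Prop :=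
  ∃ h : vec p ≠ 0, Q = Projectivization.mk K4 (vec p) h

theorem rel_pk {D : ℕ} {P : Fin 3 → GaussianInt[X]} (hsum : P 0 + P 1 = P 2)
    {p : GaussianInt × GaussianInt} (h : p ∈ OnCurve D P) :
    ∃ (t : Option K4) (hx : co D (cv P) t ≠ 0),
      Rel p (Projectivization.mk K4 (co D (cv P) t) hx) ∧ (∀ i, co D (cv P) t i ≠ 0) ∧
      rS (((∅ : Finset (Pr K4)) : Set (Pr K4))) (co D (cv P) t) =
        Real.log (rad (p.1 * p.2 * (p.1 + p.2))) ∧
      ht (co D (cv P) t) = Real.log (size p.1 p.2) := by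
  obtain ⟨t, s, hs, hv⟩ := onCurve_vec hsum h
  have hT := h.1
  have h1 : ∀ i, co D (cv P) t i ≠ 0 := by
    intro i hi
    apply vec_ne hT i
    rw [hv, Pi.smul_apply, hi, smul_zero]
  have hx : co D (cv P) t ≠ 0 := fun h0 => h1 0 (congrFun h0 0)
  refine ⟨t, hx, ⟨vec_ne' hT, ?_⟩, h1, ?_, ?_⟩
  · rw [eq_comm, Projectivization.mk_eq_mk_iff']
    exact ⟨s, hv.symm⟩
  · rw [← rS_vec hT, hv, rS_smul hs]
  · rw [← ht_vec hT, hv, ht_smul hs]

/-- quotient of the first two coordinates -/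
noncomputable def psi (Q : Projectivization K4 (Fin 3 → K4)) : K4 := Q.rep 0 / Q.rep 1

theorem rel_psi {p : GaussianInt × GaussianInt} {Q : Projectivization K4 (Fin 3 → K4)}
    (h : Rel p Q) : psi Q = phi p := by
  obtain ⟨h, rfl⟩ := h
  obtain ⟨a, ha⟩ := Projectivization.exists_smul_eq_mk_rep K4 (vec p) h
  unfold psi
  rw [← ha]
  show (a : K4) * emb p.1 / ((a : K4) * emb p.2) = emb p.1 / emb p.2
  rw [mul_div_mul_left _ _ a.ne_zero]

theorem fin_of_bound {α : Type} (P : Set α) (B : ℝ)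
    (h : ∀ G : Finset α, (G : Set α) ⊆ P → (G.card : ℝ) ≤ B) : P.Finite ∧ (P.ncard : ℝ) ≤ B := by
  have hfin : P.Finite := by
    by_contra hinf
    obtain ⟨G, hGV, hGc⟩ := Set.Infinite.exists_subset_card_eq hinf (⌊B⌋₊ + 1)
    have h1 := h G hGV
    have h2 := Nat.lt_floor_add_one B
    rw [hGc] at h1
    push_cast at h1
    linarith
  refine ⟨hfin, ?_⟩
  rw [Set.ncard_eq_toFinset_card _ hfin]
  exact h hfin.toFinset (by rw [Set.Finite.coe_toFinset])

theorem upper {A : Set (GaussianInt × GaussianInt)} {B : Set (Projectivization K4 (Fin 3 → K4))}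
    (hB : B.Finite) (h : ∀ p ∈ A, p ∈ Triples ∧ ∃ Q ∈ B, Rel p Q) :
    A.Finite ∧ (A.ncard : ℝ) ≤ 4 * (B.ncard : ℝ) := by
  classical
  refine fin_of_bound _ _ fun F hF => ?_
  have h1 := card_le_four F fun p hp => (h p (hF hp)).1
  have h2 : F.image phi ⊆ hB.toFinset.image psi := by
    intro x hx
    obtain ⟨p, hp, rfl⟩ := Finset.mem_image.1 hx
    obtain ⟨-, Q, hQ, hpQ⟩ := h p (hF hp)
    exact Finset.mem_image.2 ⟨Q, hB.mem_toFinset.2 hQ, rel_psi hpQ⟩
  have h3 := (Finset.card_le_card h2).trans Finset.card_image_le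
  rw [Set.ncard_eq_toFinset_card _ hB]
  have h4 : F.card ≤ 4 * hB.toFinset.card := h1.trans (by omega)
  exact_mod_cast h4

theorem exists_triple {D : ℕ} {P : Fin 3 → GaussianInt[X]} (hsum : P 0 + P 1 = P 2) {X : ℝ}
    (hX : 0 < X) {Q : Projectivization K4 (Fin 3 → K4)}
    (hQ : Q ∈ Pk D (((∅ : Finset (Pr K4)) : Set (Pr K4))) (cv P) X) :
    ∃ p ∈ ByRadical D P X, Rel p Q := by
  obtain ⟨t', hx, rfl, h1, h2⟩ := hQ
  obtain ⟨t, rfl⟩ := opt_surj t'
  have hc := co_cv D P t
  have hy : ∀ i, coordinates D P t i ≠ 0 := by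
    intro i hi
    apply h1 i
    rw [hc]
    show io (coordinates D P t i) = 0
    rw [hi, map_zero]
  obtain ⟨a, b, hrel, hab⟩ := IsFractionRing.exists_reduced_fraction GaussianInt
    (coordinates D P t 0 / coordinates D P t 1)
  rw [IsFractionRing.mk'_eq_div] at hab
  have hb0 : algebraMap GaussianInt Qi b ≠ 0 :=
    IsFractionRing.to_map_ne_zero_of_mem_nonZeroDivisors b.2
  obtain ⟨s, hs⟩ : ∃ s, s = algebraMap GaussianInt Qi b / coordinates D P t 1 := ⟨_, rfl⟩
  have hs0 : s ≠ 0 := by rw [hs]; exact div_ne_zero hb0 (hy 1)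
  have e1 : algebraMap GaussianInt Qi b = s * coordinates D P t 1 := by
    rw [hs, div_mul_cancel₀ _ (hy 1)]
  have e0 : algebraMap GaussianInt Qi a = s * coordinates D P t 0 := by
    have h3 := (div_eq_div_iff hb0 (hy 1)).1 hab
    rw [hs, div_mul_eq_mul_div, eq_div_iff (hy 1), h3, mul_comm]
  have e2 : algebraMap GaussianInt Qi (a + b) = s * coordinates D P t 2 := by
    rw [map_add, e0, e1, ← mul_add, coord_sum hsum]
  have hne : ∀ (z : GaussianInt) (i : Fin 3), algebraMap GaussianInt Qi z =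
      s * coordinates D P t i → z ≠ 0 := by
    rintro z i h rfl
    rw [map_zero] at h
    exact mul_ne_zero hs0 (hy i) h.symm
  have hT : ((a, (b : GaussianInt)) : GaussianInt × GaussianInt) ∈ Triples :=
    ⟨hne _ 0 e0, hne _ 1 e1, hne _ 2 e2, hrel.isCoprime⟩
  have hO : ((a, (b : GaussianInt)) : GaussianInt × GaussianInt) ∈ OnCurve D P :=
    ⟨hT, t, s, e0, e1⟩
  have hio : io s ≠ 0 := (map_ne_zero_iff io io.injective).2 hs0
  have hv : vec (a, (b : GaussianInt)) = io s • co D (cv P) (t.map io) := by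
    rw [hc]
    funext i
    show emb (tri _ i) = io s * io (coordinates D P t i)
    rw [← map_mul, ← io_alg]
    congr 1
    fin_cases i
    · exact e0
    · exact e1
    · exact e2
  refine ⟨_, ⟨hO, ?_⟩, vec_ne' hT, ?_⟩
  · rw [← rS_smul hio, ← hv, rS_vec hT] at h2
    exact (Real.log_le_log_iff (by linarith [one_le_rad hT]) hX).1 h2
  · rw [eq_comm, Projectivization.mk_eq_mk_iff']
    exact ⟨io s, hv.symm⟩

theorem lower {D : ℕ} {P : Fin 3 → GaussianInt[X]} (hsum : P 0 + P 1 = P 2) {X : ℝ}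
    (hX : 0 < X) (hfin : (ByRadical D P X).Finite) :
    ((Pk D (((∅ : Finset (Pr K4)) : Set (Pr K4))) (cv P) X).ncard : ℝ) ≤
      ((ByRadical D P X).ncard : ℝ) := by
  classical
  have h : ∀ Q ∈ Pk D (((∅ : Finset (Pr K4)) : Set (Pr K4))) (cv P) X,
    ∃ p, p ∈ ByRadical D P X ∧ Rel p Q := fun Q hQ => exists_triple hsum hX hQ
  choose! f hf using h
  have h1 := Set.ncard_le_ncard_of_injOn f (fun Q hQ => (hf Q hQ).1) (fun Q hQ Q' hQ' hff => by
    obtain ⟨h2, h3⟩ := (hf Q hQ).2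
    obtain ⟨h4, h5⟩ := (hf Q' hQ').2
    rw [h3, h5]
    congr 1
    rw [hff]) hfin
  exact_mod_cast h1

end Pool.Agent.Results.MP_dc323a_nt.AllThinSetsAtOnce

namespace Pool.Agent.Results.MP_dc323a_nt.AllThinSetsAtOnce

open NumberField IsDedekindDomain Polynomial
open Pool.Agent.TH402.AK (K4 emb emb_inj)
open Pool.Agent.Y557.U
open Pool.Agent.TH876.Loc (Pr)

theorem ck_log {D q : ℕ} {η X : ℝ} (hX : 0 < X) {P : Fin 3 → GaussianInt[X]}
    (h : Curve D q (X ^ η) P) : Ck 3 D q (η * Real.log X) ∅ (cv P) := by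
  have h1 := ck h
  rwa [Real.log_rpow hX] at h1

theorem all_sub {D q : ℕ} {η X : ℝ} (hX : 0 < X) (p : GaussianInt × GaussianInt)
    (hp : p ∈ AllByRadical D q η X) : p ∈ Triples ∧ ∃ Q ∈ APk K4 3 D q η X, Rel p Q := by
  obtain ⟨P, hP, hO, hr⟩ := hp
  obtain ⟨t, hx, hrel, h1, h2, -⟩ := rel_pk hP.sum_eq hO
  refine ⟨hO.1, _, ⟨∅, cv P, ck_log hX hP, t, hx, rfl, h1, ?_⟩, hrel⟩
  rw [h2]
  exact Real.log_le_log (by linarith [one_le_rad hO.1]) hr

theorem one_le_size {p : GaussianInt × GaussianInt} (h : p ∈ Triples) : 1 ≤ size p.1 p.2 :=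
  (one_le_norm h.1).trans (le_max_left _ _)

theorem exc_sub {D q : ℕ} {η M c X : ℝ} (hX : 0 < X) (hc : 0 < c)
    (p : GaussianInt × GaussianInt) (hp : p ∈ Exceptions D q η M c X) :
    p ∈ Triples ∧ ∃ Q ∈ EXk K4 3 D q η M (Real.log c) X, Rel p Q := by
  obtain ⟨⟨P, hP, hO, hr⟩, he⟩ := hp
  obtain ⟨t, hx, hrel, h1, h2, h3⟩ := rel_pk hP.sum_eq hO
  have hr0 : 0 < rad (p.1 * p.2 * (p.1 + p.2)) := by linarith [one_le_rad hO.1]
  refine ⟨hO.1, _, ⟨∅, cv P, ck_log hX hP, t, hx, rfl, h1, ?_, ?_⟩, hrel⟩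
  · rw [h2]
    exact Real.log_le_log hr0 hr
  · rw [h2, h3]
    have h4 := Real.log_le_log (mul_pos hc (Real.rpow_pos_of_pos hr0 M)) he
    rw [Real.log_mul hc.ne' (Real.rpow_pos_of_pos hr0 M).ne', Real.log_rpow hr0] at h4
    linarith

theorem mason {D q : ℕ} (hD : 1 ≤ D) {H : ℝ} {P : Fin 3 → GaussianInt[X]}
    (h : Curve D q H P) : D + 2 ≤ q := by
  classical
  have hk := ck h
  obtain ⟨R, hR⟩ : ∃ R : Fin 3 → K4[X], R = ![cv P 0, cv P 1, -cv P 2] := ⟨_, rfl⟩
  have hR0 : ∀ i, R i = cv P i ∨ R i = -cv P i := by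
    intro i
    rw [hR]
    fin_cases i
    · exact Or.inl rfl
    · exact Or.inl rfl
    · exact Or.inr rfl
  have hdeg : ∀ i, (R i).natDegree = (cv P i).natDegree := by
    intro i
    rcases hR0 i with h1 | h1
    · rw [h1]
    · rw [h1, natDegree_neg]
  have hm := Pool.Agent.Y557.NF.mason_q (P := R) (D := D) (fun i => ?_) (fun i => ?_) ?_ ?_
    (fun i => ?_) ?_ hD
  · refine hm.trans ?_
    rw [← hk.card]
    unfold zk Pool.Agent.Y557.NF.nz Pool.Agent.Y557.NF.rts
    have e1 : ∏ i, R i = -∏ i, cv P i := by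
      rw [Fin.prod_univ_three, Fin.prod_univ_three, hR]
      simp only [Matrix.cons_val_zero, Matrix.cons_val_one, Matrix.cons_val, mul_neg]
    refine add_le_add (le_of_eq ?_) ?_
    · refine congrArg Finset.card (Finset.ext fun r => ?_)
      rw [e1, roots_neg] <;>
      exact (@Multiset.mem_toFinset _ (_) _ _).trans (@Multiset.mem_toFinset _ (_) _ _).symm
    · by_cases h5 : Pool.Agent.Y557.NF.Unequal R
      · rw [if_pos h5]
        obtain ⟨a, b, hab⟩ := h5
        rw [hdeg, hdeg] at hab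
        rw [if_pos ⟨a, lt_of_lt_of_le hab (hk.deg b)⟩]
      · rw [if_neg h5]
        exact Nat.zero_le _
  · rcases hR0 i with h1 | h1
    · rw [h1]; exact hk.ne i
    · rw [h1]; exact neg_ne_zero.2 (hk.ne i)
  · rcases hR0 i with h1 | h1
    · rw [h1]; exact hk.spl i
    · rw [h1]; exact (hk.spl i).neg
  · rw [hR]
    simp only [Matrix.cons_val_zero, Matrix.cons_val_one, Matrix.cons_val]
    have h2 : cv P 0 + cv P 1 = cv P 2 := by
      unfold cv
      rw [← Polynomial.map_add, h.sum_eq]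
    rw [h2, add_neg_cancel]
  · rw [hR]
    simp only [Matrix.cons_val_zero, Matrix.cons_val_one]
    rw [cv_eq, cv_eq]
    exact h.coprime.map (mapRingHom io)
  · rw [hdeg]
    exact hk.deg i
  · obtain ⟨i, hi⟩ := hk.deg'
    exact ⟨i, by rw [hdeg]; exact hi⟩

/-- Let `D ≥ 1` and `q ≥ 3`.
(0) `q ≥ D + 2` for all curves.
(1) For every `δ > 0` there is `η > 0` such that the number of the coprime triples of Gaussian
integers with `rad(abc) ≤ X`, of whatever size, on all curves with coefficients at most `X ^ η`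
together is at most `C X ^ (4 / q + δ)`, and the number of those on each single one is at least
`X ^ (4 / q - δ)` for large `X`.
(2) For every `M > D / q`, for example `M = 1`, there are `η, ν > 0` such that for every `c > 0` at
most `C X ^ (4 / q - ν)` of all these triples, for large `X` at most `X ^ (-ν)` times the number of
those on each single curve, violate `max {|a|, |b|, |c|} < c rad(abc) ^ M`.
(3) All triples on a curve with coefficients at most `H` satisfy
`rad(abc) ^ D ≤ (C H) ^ C max {|a|, |b|, |c|} ^ q`. -/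
theorem result (D q : ℕ) (hD : 1 ≤ D) (hq : 3 ≤ q) :
    (∀ (H : ℝ) (P : Fin 3 → GaussianInt[X]), Curve D q H P → D + 2 ≤ q) ∧
    (∀ δ : ℝ, 0 < δ → ∃ η : ℝ, 0 < η ∧
      (∃ C : ℝ, ∀ X : ℝ, 1 ≤ X → (AllByRadical D q η X).Finite ∧
        ((AllByRadical D q η X).ncard : ℝ) ≤ C * X ^ (4 / (q : ℝ) + δ)) ∧
      ∃ X₀ : ℝ, ∀ X : ℝ, X₀ ≤ X → ∀ P : Fin 3 → GaussianInt[X], Curve D q (X ^ η) P →
        X ^ (4 / (q : ℝ) - δ) ≤ ((ByRadical D P X).ncard : ℝ)) ∧
    (∀ M : ℝ, (D : ℝ) / q < M → ∃ η ν : ℝ, 0 < η ∧ 0 < ν ∧ ∀ c : ℝ, 0 < c →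
      (∃ C : ℝ, ∀ X : ℝ, 1 ≤ X → (Exceptions D q η M c X).Finite ∧
        ((Exceptions D q η M c X).ncard : ℝ) ≤ C * X ^ (4 / (q : ℝ) - ν)) ∧
      ∃ X₀ : ℝ, ∀ X : ℝ, X₀ ≤ X → ∀ P : Fin 3 → GaussianInt[X], Curve D q (X ^ η) P →
        ((Exceptions D q η M c X).ncard : ℝ) ≤ X ^ (-ν) * ((ByRadical D P X).ncard : ℝ)) ∧
    ∃ C : ℝ, 0 < C ∧ ∀ (H : ℝ) (P : Fin 3 → GaussianInt[X]), Curve D q H P →
      ∀ p ∈ OnCurve D P,
      rad (p.1 * p.2 * (p.1 + p.2)) ^ D ≤ (C * H) ^ C * size p.1 p.2 ^ q := by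
  obtain ⟨h1, h2, C3, hC3, h3⟩ := abk_main K4 3 D q hD hq
  simp only [dgr4] at h1 h2
  have hexp : 2 * (2 : ℝ) / q = 4 / q := by norm_num
  rw [hexp] at h1 h2
  have hbyf : ∀ {η X : ℝ} {P : Fin 3 → GaussianInt[X]}, Curve D q (X ^ η) P →
      ByRadical D P X ⊆ AllByRadical D q η X := fun hP p hp => ⟨_, hP, hp⟩
  have hallf : ∀ {η X : ℝ}, 0 < X → (APk K4 3 D q η X).Finite → (AllByRadical D q η X).Finite :=
    fun hX hf => (upper hf fun p hp => all_sub hX p hp).1
  refine ⟨fun H P hP => mason hD hP, fun δ hδ => ?_, fun M hM => ?_, ?_⟩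
  · obtain ⟨η, hη, ⟨C, hC⟩, X0, hX0⟩ := h1 δ hδ
    refine ⟨η, hη, ⟨4 * C, fun X hX => ?_⟩, max 1 X0, fun X hX P hP => ?_⟩
    · obtain ⟨h4, h5⟩ := hC X hX
      obtain ⟨h6, h7⟩ := upper h4 fun p hp => all_sub (by linarith) p hp
      refine ⟨h6, ?_⟩
      linarith
    · have hX1 : 1 ≤ X := (le_max_left _ _).trans hX
      have hXp : 0 < X := by linarith
      have h4 := hX0 X ((le_max_right _ _).trans hX) ∅ (cv P) (ck_log hXp hP)
      refine h4.trans (lower hP.sum_eq hXp ?_)
      exact (hallf hXp (hC X hX1).1).subset (hbyf hP)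
  · obtain ⟨η, ν, hη, hν, h4⟩ := h2 M hM
    refine ⟨η, ν / 2, hη, by positivity, fun c hc => ?_⟩
    obtain ⟨⟨C, hC⟩, X0, hX0⟩ := h4 (Real.log c)
    refine ⟨⟨4 * |C|, fun X hX => ?_⟩, max (max 1 X0) (4 ^ (2 / ν)), fun X hX P hP => ?_⟩
    · have hXp : 0 < X := by linarith
      obtain ⟨h5, h6⟩ := hC X hX
      obtain ⟨h7, h8⟩ := upper h5 fun p hp => exc_sub hXp hc p hp
      refine ⟨h7, h8.trans ?_⟩
      have h9 : X ^ (4 / (q : ℝ) - ν) ≤ X ^ (4 / (q : ℝ) - ν / 2) :=
        Real.rpow_le_rpow_of_exponent_le hX (by linarith)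
      have h10 : C * X ^ (4 / (q : ℝ) - ν) ≤ |C| * X ^ (4 / (q : ℝ) - ν / 2) :=
        mul_le_mul (le_abs_self C) h9 (Real.rpow_nonneg hXp.le _) (abs_nonneg C)
      linarith
    · have hX1 : 1 ≤ X := ((le_max_left _ _).trans (le_max_left _ _)).trans hX
      have hXp : 0 < X := by linarith
      have hXX : X0 ≤ X := ((le_max_right _ _).trans (le_max_left _ _)).trans hX
      have hX4 : (4 : ℝ) ^ (2 / ν) ≤ X := (le_max_right _ _).trans hX
      obtain ⟨h5, -⟩ := hC X hX1
      obtain ⟨-, h8⟩ := upper h5 fun p hp => exc_sub hXp hc p hp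
      have h9 := hX0 X hXX ∅ (cv P) (ck_log hXp hP)
      have hfin : (ByRadical D P X).Finite := by
        obtain ⟨η', hη', ⟨C', hC'⟩, -⟩ := h1 1 one_pos
        obtain ⟨X', hX'⟩ : ∃ X', X' = max X (X ^ (η / η')) := ⟨_, rfl⟩
        have hXX' : X ≤ X' := by rw [hX']; exact le_max_left _ _
        have e1 : X ^ η ≤ X' ^ η' := by
          have e2 : (X ^ (η / η')) ^ η' = X ^ η := by
            rw [← Real.rpow_mul hXp.le, div_mul_cancel₀ _ hη'.ne']
          rw [← e2, hX']
          exact Real.rpow_le_rpow (Real.rpow_nonneg hXp.le _) (le_max_right _ _) hη'.le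
        have hP' : Curve D q (X' ^ η') P := ⟨hP.ne_zero, hP.sum_eq, hP.coprime, hP.splits,
          hP.degree_le, hP.degree_eq, hP.points, fun i k => (hP.small i k).trans e1⟩
        exact (hallf (by linarith) (hC' X' (by linarith)).1).subset
          fun p hp => ⟨P, hP', hp.1, hp.2.trans hXX'⟩
      have h10 := lower hP.sum_eq hXp hfin
      have h11 : 4 ≤ X ^ (ν / 2) := by
        have h12 := Real.rpow_le_rpow (by positivity) hX4 (by positivity : 0 ≤ ν / 2)
        rw [← Real.rpow_mul (by norm_num : (0 : ℝ) ≤ 4)] at h12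
        have h13 : 2 / ν * (ν / 2) = 1 := by field_simp
        rwa [h13, Real.rpow_one] at h12
      have h14 : X ^ (-ν) * X ^ (ν / 2) = X ^ (-(ν / 2)) := by
        rw [← Real.rpow_add hXp]
        congr 1
        ring
      have h15 : 0 ≤ X ^ (-ν) := Real.rpow_nonneg hXp.le _
      have h16 : (0 : ℝ) ≤ ((ByRadical D P X).ncard : ℝ) := Nat.cast_nonneg _
      calc ((Exceptions D q η M c X).ncard : ℝ)
          ≤ 4 * (X ^ (-ν) * ((ByRadical D P X).ncard : ℝ)) := by
            refine h8.trans (mul_le_mul_of_nonneg_left (h9.trans ?_) (by norm_num))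
            exact mul_le_mul_of_nonneg_left h10 h15
        _ ≤ X ^ (ν / 2) * (X ^ (-ν) * ((ByRadical D P X).ncard : ℝ)) :=
            mul_le_mul_of_nonneg_right h11 (mul_nonneg h15 h16)
        _ = X ^ (-(ν / 2)) * ((ByRadical D P X).ncard : ℝ) := by
            rw [← h14]
            ring
  · obtain ⟨C, hC⟩ : ∃ C : ℝ, C = max C3 3 := ⟨_, rfl⟩
    have hCC : C3 ≤ C := by rw [hC]; exact le_max_left _ _
    have hC3' : 3 ≤ C := by rw [hC]; exact le_max_right _ _
    have hC0 : 0 < C := by linarith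
    refine ⟨C, hC0, fun H P hP p hp => ?_⟩
    obtain ⟨t, hx, -, h4, h5, h6⟩ := rel_pk hP.sum_eq hp
    have h7 := h3 (Real.log H) ∅ (cv P) (ck hP) t hx h4
    rw [h5, h6] at h7
    have hH := one_le_H hP
    have hH0 : 0 < H := by linarith
    have hlH := Real.log_nonneg hH
    have hr0 : 0 < rad (p.1 * p.2 * (p.1 + p.2)) := by linarith [one_le_rad hp.1]
    have hs0 : 0 < size p.1 p.2 := by linarith [one_le_size hp.1]
    have hlog3 : 1 ≤ Real.log C := by
      rw [Real.le_log_iff_exp_le hC0]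
      have := Real.exp_one_lt_d9
      linarith
    have hCH : 0 < C * H := by positivity
    rw [← Real.log_le_log_iff (by positivity) (by positivity), Real.log_pow,
      Real.log_mul (Real.rpow_pos_of_pos hCH C).ne' (by positivity), Real.log_rpow hCH,
      Real.log_pow, Real.log_mul hC0.ne' hH0.ne']
    have h8 : C3 * (Real.log H + 1) ≤ C * (Real.log C + Real.log H) :=
      mul_le_mul hCC (by linarith) (by linarith) hC0.le
    linarith

end Pool.Agent.Results.MP_dc323a_nt.AllThinSetsAtOnce
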