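import Mathlib
import Pool.Agent.TH402.AK.Count
import Pool.Agent.Y728.AK.Final

/-!
# The abc inequality for almost all triples of Gaussian integers, of all sizes

The coprime triples `a + b = c`, `a b c ≠ 0`, of Gaussian integers are ordered by the radical of
`a b c`; there is no restriction on their size. For every `M > 1/3` all but a power-saving proportion
of them satisfy `max {|a|, |b|, |c|} < rad(abc) ^ M`; for `M ≤ 1/3` none does.
-/

set_option autoImplicit false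

namespace Pool.Agent.Results.MP_dc323a_nt.AlmostAllTriples

/-- `max {|a|, |b|, |a + b|}` -/
noncomputable def size (a b : GaussianInt) : ℝ :=
  max ‖GaussianInt.toComplex a‖ (max ‖GaussianInt.toComplex b‖ ‖GaussianInt.toComplex (a + b)‖)

/-- `rad(n)`: the product of `|Q|` over the Gaussian primes `Q` dividing `n`, one from each class of
associates, namely the one with `Re Q > 0` and `Im Q ≥ 0` -/
noncomputable def rad (n : GaussianInt) : ℝ :=
  ∏ᶠ Q ∈ {Q : GaussianInt | Prime Q ∧ Q ∣ n ∧ (0 < Q.re ∧ 0 ≤ Q.im)}, ‖GaussianInt.toComplex Q‖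

/-- the pairs `(a, b)` of coprime Gaussian integers with `a b c ≠ 0`, where `c = a + b` -/
def Triples : Set (GaussianInt × GaussianInt) :=
  {p | p.1 ≠ 0 ∧ p.2 ≠ 0 ∧ p.1 + p.2 ≠ 0 ∧ IsCoprime p.1 p.2}

/-- the triples with `rad(abc) ≤ X`; there is no condition on the size -/
def ByRadical (X : ℝ) : Set (GaussianInt × GaussianInt) :=
  {p | p ∈ Triples ∧ rad (p.1 * p.2 * (p.1 + p.2)) ≤ X}

/-- those among them with `max {|a|, |b|, |c|} ≥ rad(abc) ^ M`: the triples violating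
`max {|a|, |b|, |c|} < rad(abc) ^ M` -/
def Exceptions (M X : ℝ) : Set (GaussianInt × GaussianInt) :=
  {p | p ∈ Triples ∧ rad (p.1 * p.2 * (p.1 + p.2)) ≤ X ∧
    rad (p.1 * p.2 * (p.1 + p.2)) ^ M ≤ size p.1 p.2}

theorem fin_of_bound {α : Type} (P : Set α) (B : ℝ)
    (h : ∀ G : Finset α, (G : Set α) ⊆ P → (G.card : ℝ) ≤ B) : P.Finite ∧ (P.ncard : ℝ) ≤ B := by
  have hfin : P.Finite := by
    by_contra hinf
    obtain ⟨G, hGV, hGc⟩ := Set.Infinite.exists_subset_card_eq hinf (⌊B⌋₊ + 1)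
    have h1 := h G hGV
    have h2 := Nat.lt_floor_add_one B
    rw [hGc] at h1
    push_cast at h1
    linarith
  refine ⟨hfin, ?_⟩
  rw [Set.ncard_eq_toFinset_card _ hfin]
  exact h hfin.toFinset (by rw [Set.Finite.coe_toFinset])

open Pool.Agent.TH402.AK Pool.Agent.TH876.Loc in
theorem one_le_rad {p : GaussianInt × GaussianInt} (h : p ∈ Triples) :
    1 ≤ rad (p.1 * p.2 * (p.1 + p.2)) := by
  have h1 : GTri p := h
  have h2 := rad_tri h1.tri
  have h3 := one_le_nn (sp (pt (e p.1) (e p.2)))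
  rw [← h2] at h3
  have h4 : 0 ≤ rad (p.1 * p.2 * (p.1 + p.2)) := rad_pos _
  by_contra h5
  rw [not_le] at h5
  have h6 : Pool.Agent.TH402.AK.rad (p.1 * p.2 * (p.1 + p.2)) ^ 2 < 1 :=
    pow_lt_one₀ h4 h5 (by norm_num)
  linarith

open Pool.Agent.TH402.AK Pool.Agent.TH876.Loc in
theorem log_rad {p : GaussianInt × GaussianInt} (h : p ∈ Triples) :
    2 * Real.log (rad (p.1 * p.2 * (p.1 + p.2))) = Real.log (nn (sp (pt (e p.1) (e p.2)))) := by
  have h1 : GTri p := h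
  rw [← rad_tri h1.tri, Real.log_pow]
  norm_num
  rfl

open Pool.Agent.TH402.AK Pool.Agent.TH876.Loc in
theorem upper (ε : ℝ) (hε : 0 < ε) : ∃ C : ℝ, 0 < C ∧ ∀ X : ℝ, 1 ≤ X →
    ∀ F : Finset (GaussianInt × GaussianInt), (∀ p ∈ F, GTri p ∧
      Pool.Agent.TH402.AK.rad (p.1 * p.2 * (p.1 + p.2)) ≤ X) →
    (F.card : ℝ) ≤ C * X ^ (4 / 3 + ε) := by
  classical
  obtain ⟨C, hC, h⟩ := Pool.Agent.Y728.mainK K4 (ε / 2) (by linarith)
  refine ⟨4 * C, by linarith, ?_⟩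
  intro X hX F hF
  have h1 := card_le_four F fun p hp => (hF p hp).1
  have h2 := h (X ^ 2) (one_le_pow₀ hX) (F.image phi) (by
    intro x hx
    obtain ⟨p, hp, rfl⟩ := Finset.mem_image.1 hx
    obtain ⟨h3, h4⟩ := hF p hp
    refine ⟨h3.tri.pt, ?_⟩
    unfold phi
    rw [← rad_tri h3.tri]
    exact pow_le_pow_left₀ (rad_pos _) h4 2)
  have h3 : (X ^ 2 : ℝ) ^ (2 / 3 + ε / 2) = X ^ (4 / 3 + ε) := by
    rw [← Real.rpow_natCast, ← Real.rpow_mul (by linarith)]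
    congr 1
    push_cast
    ring
  rw [h3] at h2
  have h4 : (F.card : ℝ) ≤ 4 * ((F.image phi).card : ℝ) := by exact_mod_cast h1
  linarith

open Pool.Agent.TH402.AK Pool.Agent.TH876.Loc in
theorem exc {M : ℝ} (hM : 1 / 3 < M) : ∃ ν C : ℝ, 0 < ν ∧ 0 < C ∧ ∀ X : ℝ, 1 ≤ X →
    ∀ F : Finset (GaussianInt × GaussianInt), (F : Set (GaussianInt × GaussianInt)) ⊆ Exceptions M X →
    (F.card : ℝ) ≤ C * X ^ (4 / 3 - ν) := by
  classical
  obtain ⟨ν, hν, C, hC, h⟩ := Pool.Agent.Y728.AK.exc_aff K4 (Pool.Agent.Y728.AK.almost_allK K4) ∅ hM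
  refine ⟨2 * ν, 4 * C, by linarith, by linarith, ?_⟩
  intro X hX F hF
  have h0 : ∀ p ∈ F, p ∈ Triples ∧ rad (p.1 * p.2 * (p.1 + p.2)) ≤ X ∧
    rad (p.1 * p.2 * (p.1 + p.2)) ^ M ≤ size p.1 p.2 := fun p hp => hF hp
  have h1 := card_le_four F fun p hp => (h0 p hp).1
  have h2 := h (X ^ 2) (one_le_pow₀ hX) (F.image phi) (by
    intro x hx
    obtain ⟨p, hp, rfl⟩ := Finset.mem_image.1 hx
    obtain ⟨h3, h4, h5⟩ := h0 p hp
    have h6 : GTri p := h3
    refine ⟨h6.tri.pt, ?_⟩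
    rw [Finset.sdiff_empty]
    refine ⟨?_, ?_⟩
    · unfold phi
      rw [← rad_tri h6.tri]
      exact pow_le_pow_left₀ (rad_pos _) h4 2
    · unfold phi
      rw [← log_rad h3, hgt_gauss h6.tri]
      have h7 : 1 ≤ rad (p.1 * p.2 * (p.1 + p.2)) := one_le_rad h3
      have h8 : 0 < rad (p.1 * p.2 * (p.1 + p.2)) := by linarith
      have h9 := Real.log_le_log (Real.rpow_pos_of_pos h8 M) h5
      rw [Real.log_rpow h8] at h9
      unfold size at h9
      linarith)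
  have h3 : (X ^ 2 : ℝ) ^ (2 / 3 - ν) = X ^ (4 / 3 - 2 * ν) := by
    rw [← Real.rpow_natCast, ← Real.rpow_mul (by linarith)]
    congr 1
    push_cast
    ring
  rw [h3] at h2
  have h4 : (F.card : ℝ) ≤ 4 * ((F.image phi).card : ℝ) := by exact_mod_cast h1
  linarith

open Pool.Agent.TH402.AK Pool.Agent.TH876.Loc in
theorem small {M : ℝ} (hM : M ≤ 1 / 3) {p : GaussianInt × GaussianInt} (h : p ∈ Triples) :
    rad (p.1 * p.2 * (p.1 + p.2)) ^ M ≤ size p.1 p.2 := by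
  have h1 : GTri p := h
  have h2 := Pool.Agent.Y728.AK.rad_le_three h1.tri.pt
  rw [← log_rad h, hgt_gauss h1.tri] at h2
  have h3 : 1 ≤ rad (p.1 * p.2 * (p.1 + p.2)) := one_le_rad h
  have h4 : 0 < rad (p.1 * p.2 * (p.1 + p.2)) := by linarith
  have h5 : 0 < size p.1 p.2 := lt_of_lt_of_le one_pos (one_le_size h1)
  rw [← Real.log_le_log_iff (Real.rpow_pos_of_pos h4 M) h5, Real.log_rpow h4]
  have h6 := Real.log_nonneg h3
  have h7 : M * Real.log (rad (p.1 * p.2 * (p.1 + p.2))) ≤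
      1 / 3 * Real.log (rad (p.1 * p.2 * (p.1 + p.2))) := mul_le_mul_of_nonneg_right hM h6
  unfold size
  linarith

/-- **The abc inequality holds for almost all triples of Gaussian integers.**
(1) The number of the coprime triples `a + b = c`, `a b c ≠ 0`, of Gaussian integers with
`rad(abc) ≤ X`, of whatever size, is at most `C X ^ (4 / 3 + ε)` for `X ≥ 1`, for every `ε > 0`, and
at least `c X ^ (4 / 3)` for all large `X`.
(2) For every `M > 1/3` at most `C X ^ (4 / 3 - ν)` of them, a proportion `≤ X ^ (-ν)` for large `X`,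
violate the inequality `max {|a|, |b|, |c|} < rad(abc) ^ M`.
(3) For `M ≤ 1/3` all of them do. -/
theorem result :
    (∀ ε : ℝ, 0 < ε → ∃ C : ℝ, ∀ X : ℝ, 1 ≤ X → (ByRadical X).Finite ∧
      ((ByRadical X).ncard : ℝ) ≤ C * X ^ (4 / 3 + ε)) ∧
    (∃ c X0 : ℝ, 0 < c ∧ ∀ X : ℝ, X0 ≤ X → c * X ^ (4 / 3 : ℝ) ≤ ((ByRadical X).ncard : ℝ)) ∧
    (∀ M : ℝ, 1 / 3 < M →
      (∃ ν C : ℝ, 0 < ν ∧ 0 < C ∧ ∀ X : ℝ, 1 ≤ X →
        ((Exceptions M X).ncard : ℝ) ≤ C * X ^ (4 / 3 - ν)) ∧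
      ∃ ν X0 : ℝ, 0 < ν ∧ ∀ X : ℝ, X0 ≤ X →
        ((Exceptions M X).ncard : ℝ) ≤ X ^ (-ν) * ((ByRadical X).ncard : ℝ)) ∧
    (∀ M : ℝ, M ≤ 1 / 3 → ∀ X : ℝ, Exceptions M X = ByRadical X) := by
  have hup : ∀ ε : ℝ, 0 < ε → ∃ C : ℝ, ∀ X : ℝ, 1 ≤ X → (ByRadical X).Finite ∧
      ((ByRadical X).ncard : ℝ) ≤ C * X ^ (4 / 3 + ε) := by
    intro ε hε
    obtain ⟨C, hC, h⟩ := upper ε hε
    exact ⟨C, fun X hX => fin_of_bound _ _ fun G hG => h X hX G fun p hp => hG hp⟩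
  have hlow : ∃ c X0 : ℝ, 0 < c ∧ ∀ X : ℝ, X0 ≤ X →
      c * X ^ (4 / 3 : ℝ) ≤ ((ByRadical X).ncard : ℝ) := by
    obtain ⟨c, X0, hc, hX0, hl⟩ := Pool.Agent.TH402.AK.lower
    obtain ⟨C, hC⟩ := hup 1 one_pos
    refine ⟨c, X0, hc, fun X hX => ?_⟩
    obtain ⟨F, hF, hcard⟩ := hl X hX
    have hfin : (ByRadical X).Finite := (hC X (hX0.trans hX)).1
    have h1 : (F : Set (GaussianInt × GaussianInt)) ⊆ ByRadical X := by
      intro p hp
      obtain ⟨h2, h3, h4⟩ := hF p hp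
      exact ⟨h2, h3⟩
    have h2 := Set.ncard_le_ncard h1 hfin
    rw [Set.ncard_coe_finset] at h2
    refine hcard.trans ?_
    exact_mod_cast h2
  have hex : ∀ M : ℝ, 1 / 3 < M → ∃ ν C : ℝ, 0 < ν ∧ 0 < C ∧ ∀ X : ℝ, 1 ≤ X →
        ((Exceptions M X).ncard : ℝ) ≤ C * X ^ (4 / 3 - ν) := by
    intro M hM
    obtain ⟨ν, C, hν, hC, h⟩ := exc hM
    exact ⟨ν, C, hν, hC, fun X hX => (fin_of_bound _ _ fun G hG => h X hX G hG).2⟩
  refine ⟨hup, hlow, fun M hM => ⟨hex M hM, ?_⟩, fun M hM X => ?_⟩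
  · obtain ⟨ν, C, hν, hC, h⟩ := hex M hM
    obtain ⟨c, X0, hc, hl⟩ := hlow
    obtain ⟨Λ, hΛ⟩ : ∃ Λ, Λ = |Real.log (C / c)| * (2 / ν) := ⟨_, rfl⟩
    refine ⟨ν / 2, max (max 1 X0) (Real.exp Λ), by positivity, fun X hX => ?_⟩
    have hX1 : 1 ≤ X := ((le_max_left _ _).trans (le_max_left _ _)).trans hX
    have hXX : X0 ≤ X := ((le_max_right _ _).trans (le_max_left _ _)).trans hX
    have hXe : Real.exp Λ ≤ X := (le_max_right _ _).trans hX
    have hXp : 0 < X := by linarith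
    have hCc : C / c ≤ X ^ (ν / 2) := by
      have e1 : Λ ≤ Real.log X := (Real.le_log_iff_exp_le hXp).2 hXe
      rw [← Real.log_le_log_iff (by positivity) (Real.rpow_pos_of_pos hXp _), Real.log_rpow hXp]
      have e2 : ν / 2 * Λ = |Real.log (C / c)| := by rw [hΛ]; field_simp
      have e3 := mul_le_mul_of_nonneg_left e1 (by positivity : 0 ≤ ν / 2)
      rw [e2] at e3
      exact (le_abs_self _).trans e3
    rw [div_le_iff₀ hc] at hCc
    have hpos : ∀ b : ℝ, 0 < X ^ b := fun b => Real.rpow_pos_of_pos hXp b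
    calc ((Exceptions M X).ncard : ℝ) ≤ C * X ^ (4 / 3 - ν) := h X hX1
      _ ≤ (X ^ (ν / 2) * c) * X ^ (4 / 3 - ν) := mul_le_mul_of_nonneg_right hCc (hpos _).le
      _ = X ^ (-(ν / 2)) * (c * X ^ (4 / 3 : ℝ)) := by
          have e1 : X ^ (ν / 2) * X ^ (4 / 3 - ν) = X ^ (-(ν / 2)) * X ^ (4 / 3 : ℝ) := by
            rw [← Real.rpow_add hXp, ← Real.rpow_add hXp]
            congr 1
            ring
          linear_combination c * e1
      _ ≤ _ := mul_le_mul_of_nonneg_left (hl X hXX) (hpos _).le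
  · ext p
    constructor
    · rintro ⟨h1, h2, -⟩
      exact ⟨h1, h2⟩
    · rintro ⟨h1, h2⟩
      exact ⟨h1, h2, small hM h1⟩

end Pool.Agent.Results.MP_dc323a_nt.AlmostAllTriples
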