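import Mathlib
import Pool.Agent.Y353.QO.Ring

/-!
# Gaussian integers: relations between perfect powers, power saving in boxes

There is an absolute constant `δ > 0` such that for all `k`, `K` and all `N ≥ N₀(k, K)` every box in `ℤ[i]^k` whose
`2k` sides `M_j`, `M'_j` are at least `N` (and anywhere in the space) contains at most `N ^ (-δ) ∏ M_j M'_j` tuples
`A = (A₁, …, A_k)` of Gaussian integers with a relation

  `a u + b v = c w ^ n`,

where `u` and `v` are products of powers of the `A_j` and of their conjugates, with arbitrary exponents, `n` has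
a prime factor at most `(log N) ^ K`, and the coefficients `a`, `b` are products of powers of elements of a set
`E` of at most `(log N) ^ (1/25)` Gaussian integers of norm between `1` and `exp (√(log N) / 3)`, `c` is a product
of powers of elements of a set `E'` of at most `(log N) ^ (9/10)` Gaussian integers. No number larger than
`exp (√(log N) / 3)` may divide all the differences of the exponents in `u` and `v`. The coefficients are not
bounded, `w` is any Gaussian integer, and no coprimality is needed.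

Examples (for almost all `A`, with a power saving, and with such coefficients): `a A₁ ^ p + b A₂ ^ q = c w ^ n` has
no solution with `gcd (p, q) ≤ exp (√(log N) / 3)`; the imaginary and the real part of `A ^ g`,
`g ≤ exp (√(log N) / 3)`, are not of the form `c w ^ n` (as `2 i Im (A ^ g) = A ^ g - conj A ^ g`).
-/

set_option autoImplicit false

namespace Pool.Agent.Results.MP_dc323a_nt.RelationsInBoxes

/-- `a` is a product of powers of elements of `E` -/
def Gen (E : Finset GaussianInt) (a : GaussianInt) : Prop := ∃ f : GaussianInt → ℕ, a = ∏ s ∈ E, s ^ f s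

/-- The `k`-tuple `A` of Gaussian integers has a relation
`a ∏ A_j ^ x_j conj (A_j) ^ x'_j + b ∏ A_j ^ y_j conj (A_j) ^ y'_j = c w ^ n` with coefficients `a`, `b` generated by
`E` and `c` generated by `E'` and an exponent `n` with a small prime factor, where no large number `r` divides all
the differences `y_j - x_j` and `y'_j - x'_j`. -/
def Rel (k N K : ℕ) (E E' : Finset GaussianInt) (A : Fin k → GaussianInt) : Prop :=
  ∃ (x x' y y' : Fin k → ℕ) (n : ℕ) (a b c w : GaussianInt), Gen E a ∧ Gen E b ∧ Gen E' c ∧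
    (∃ p : ℕ, p.Prime ∧ p ∣ n ∧ (p : ℝ) ≤ Real.log N ^ K) ∧
    (∀ r : ℕ, (∀ j, (r : ℤ) ∣ (y j : ℤ) - x j ∧ (r : ℤ) ∣ (y' j : ℤ) - x' j) →
      (r : ℝ) ≤ Real.exp (√(Real.log N) / 3)) ∧
    a * ∏ j, (A j ^ x j * star (A j) ^ x' j) + b * ∏ j, (A j ^ y j * star (A j) ^ y' j) = c * w ^ n

theorem split (t : ℕ) (ht : t.Prime) (h3 : 3 ≤ t) (h4 : 4 ∣ t - 1) :
    ∃ φ : GaussianInt →+* ZMod t, φ ⟨0, 1⟩ ≠ φ ⟨0, -1⟩ := by
  have : Fact t.Prime := ⟨ht⟩
  have h5 : t % 4 ≠ 3 := by omega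
  obtain ⟨r, hr⟩ := ZMod.exists_sq_eq_neg_one_iff.2 h5
  refine ⟨Zsqrtd.lift ⟨r, by rw [← hr]; push_cast; rfl⟩, ?_⟩
  simp only [Zsqrtd.lift_apply_apply]
  push_cast
  intro h6
  have h7 : (2 : ZMod t) * r = 0 := by linear_combination h6
  rcases mul_eq_zero.1 h7 with h8 | h8
  · have h9 : ((2 : ℕ) : ZMod t) = 0 := by exact_mod_cast h8
    rw [ZMod.natCast_eq_zero_iff] at h9
    have := Nat.le_of_dvd (by norm_num) h9
    omega
  · rw [h8, mul_zero] at hr
    have h9 : (1 : ZMod t) = 0 := by linear_combination -hr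
    exact one_ne_zero h9

theorem result : ∃ δ : ℝ, 0 < δ ∧ ∀ k K : ℕ, ∃ N₀ : ℕ, ∀ N : ℕ, N₀ ≤ N → ∀ E E' : Finset GaussianInt,
    (E.card : ℝ) ≤ Real.log N ^ (1 / 25 : ℝ) → (E'.card : ℝ) ≤ Real.log N ^ (9 / 10 : ℝ) →
    (∀ e ∈ E, e ≠ 0 ∧ (e.norm : ℝ) ≤ Real.exp (√(Real.log N) / 3)) →
    ∀ (s : Fin k → GaussianInt) (M M' : Fin k → ℕ), (∀ j, N ≤ M j ∧ N ≤ M' j) →
    (({A : Fin k → GaussianInt | (∀ j, (s j).re < (A j).re ∧ (A j).re ≤ (s j).re + M j ∧
      (s j).im < (A j).im ∧ (A j).im ≤ (s j).im + M' j) ∧ Rel k N K E E' A}.ncard : ℕ) : ℝ) ≤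
      (N : ℝ) ^ (-δ) * ∏ j, ((M j : ℝ) * M' j) := by
  classical
  obtain ⟨δ, hδ, h⟩ := Pool.Agent.Y353.QO.boxes
  refine ⟨δ, hδ, fun k K => ?_⟩
  obtain ⟨N₀, g⟩ := h GaussianInt ⟨0, 1⟩ ⟨0, -1⟩ 4 3 (by norm_num) split k K
  refine ⟨N₀, fun N hN E E' hE hE' hn s M M' hM => ?_⟩
  set T : Set (Fin k → GaussianInt) := {A : Fin k → GaussianInt | (∀ j, (s j).re < (A j).re ∧
    (A j).re ≤ (s j).re + M j ∧ (s j).im < (A j).im ∧ (A j).im ≤ (s j).im + M' j) ∧ Rel k N K E E' A} with hT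
  -- coordinates
  let F : (Fin k → GaussianInt) → (Fin k → ℤ × ℤ) := fun A j => ((A j).re, (A j).im)
  have hFinj : Function.Injective F := by
    intro A A' hAA
    funext j
    have h1 := congrFun hAA j
    simp only [F, Prod.mk.injEq] at h1
    exact Zsqrtd.ext h1.1 h1.2
  have hfinT : (F '' T).Finite := by
    apply Set.Finite.subset (Set.Finite.pi' fun j =>
      (Set.finite_Ioc (s j).re ((s j).re + M j)).prod (Set.finite_Ioc (s j).im ((s j).im + M' j)))
    rintro _ ⟨A, ⟨hA, -⟩, rfl⟩ j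
    obtain ⟨h1, h2, h3, h4⟩ := hA j
    exact ⟨⟨h1, h2⟩, ⟨h3, h4⟩⟩
  rw [← Set.ncard_image_of_injective T hFinj, Set.ncard_eq_toFinset_card _ hfinT]
  have hel : ∀ z : GaussianInt, Pool.Agent.Y353.QO.el (⟨0, 1⟩ : GaussianInt) (z.re, z.im) = z := by
    intro z
    unfold Pool.Agent.Y353.QO.el
    ext <;> simp
  have hel' : ∀ z : GaussianInt, Pool.Agent.Y353.QO.el (⟨0, -1⟩ : GaussianInt) (z.re, z.im) = star z := by
    intro z
    unfold Pool.Agent.Y353.QO.el
    ext <;> simp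
  apply g N hN E E' hE hE' ?_ (F s) M M' hM
  · intro A hA
    rw [Set.Finite.mem_toFinset] at hA
    obtain ⟨A, ⟨hA, x, x', y, y', n, a, b, c, w, ha, hb, hc, hp, hr, heq⟩, rfl⟩ := hA
    refine ⟨hA, x, x', y, y', n, a, b, c, w, ha, hb, hc, hp, hr, ?_⟩
    simp only [F, hel, hel']
    exact heq
  · intro e he
    obtain ⟨h1, h2⟩ := hn e he
    refine ⟨star e, e.norm, (Zsqrtd.norm_eq_mul_conj e).symm, ?_, ?_⟩
    · exact fun h0 => h1 (GaussianInt.norm_eq_zero.1 h0)
    · have h3 : (0 : ℝ) ≤ e.norm := by exact_mod_cast GaussianInt.norm_nonneg e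
      rw [abs_of_nonneg h3]
      exact h2

end Pool.Agent.Results.MP_dc323a_nt.RelationsInBoxes
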