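import Pool.Agent.Results.MP_dc323a_nt.ExceptionalSetTwelveElevenths
import Pool.Agent.Y854.GM.Win

/-!
# The abc conjecture over the Gaussian integers without exceptions in windows

Let `v ≥ 1` be a sequence with exponent of convergence at most `τ` (for `v_n = n ^ a` this is `1 / a`, for `v_n = b ^ n`
it is `0`), `θ < 1`, `λ > 0` and `s = min (4 λ / 7) (6 / 11) + max (λ - 1) 0`. For all `α > 0` outside a set of Hausdorff
dimension at most `(s + τ) / (1 - θ)` and each `B`, for all but finitely many `n`, ALL coprime triples `a + b = c` of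
nonzero Gaussian integers for which `H = max (|a|, |b|, |c|)` satisfies `|H ^ 2 - α v_n| ≤ v_n ^ θ` have
`rad (abc) > B H ^ λ`.
-/

set_option autoImplicit false

namespace Pool.Agent.Results.MP_dc323a_nt.WindowsWithoutExceptions

open ExceptionalSetTwelveElevenths (Exc)

/-- the exponent of convergence of the sequence `v` is at most `τ` -/
def ExpLe (v : ℕ → ℝ) (τ : ℝ) : Prop := ∀ t : ℝ, τ < t → Summable (fun n : ℕ => (v n) ^ (-t))

/-- `S` contains exactly one Gaussian prime from each associate class of Gaussian primes dividing `x` -/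
def IsPrimeSystem (S : Finset GaussianInt) (x : GaussianInt) : Prop :=
  (∀ Q ∈ S, Prime Q ∧ Q ∣ x) ∧
  (∀ Q : GaussianInt, Prime Q → Q ∣ x → ∃ R ∈ S, Associated Q R) ∧
  (∀ Q ∈ S, ∀ R ∈ S, Associated Q R → Q = R)

/-- the largest absolute value of the members of a triple -/
noncomputable def height (t : GaussianInt × GaussianInt × GaussianInt) : ℝ :=
  max ‖GaussianInt.toComplex t.1‖
    (max ‖GaussianInt.toComplex t.2.1‖ ‖GaussianInt.toComplex t.2.2‖)

/-- the exponent -/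
noncomputable def expo (lam : ℝ) : ℝ := min (4 * lam / 7) (6 / 11) + max (lam - 1) 0

/-- the exceptional triples, of any height -/
def All (B lam : ℝ) : Set (GaussianInt × GaussianInt × GaussianInt) := ⋃ X : ℝ, Exc B lam X

lemma count (B lam ε : ℝ) (h0 : 0 < lam) (hε : 0 < ε) : ∃ C : ℝ, ∀ X : ℝ, 1 ≤ X →
    {t | t ∈ All B lam ∧ height t ^ 2 ≤ X}.Finite ∧
      ({t | t ∈ All B lam ∧ height t ^ 2 ≤ X}.ncard : ℝ) ≤ C * X ^ (expo lam + ε) := by
  obtain ⟨C, hC⟩ := ExceptionalSetTwelveElevenths.result B lam (2 * ε) h0 (by positivity)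
  refine ⟨C, fun X hX => ?_⟩
  have hX0 : 0 < X := by linarith
  have h1 : 1 ≤ X ^ (1 / 2 : ℝ) := Real.one_le_rpow hX (by norm_num)
  obtain ⟨hfin, hcard⟩ := hC (X ^ (1 / 2 : ℝ)) h1
  have hsub : {t | t ∈ All B lam ∧ height t ^ 2 ≤ X} ⊆ Exc B lam (X ^ (1 / 2 : ℝ)) := by
    rintro t ⟨ht, htX⟩
    obtain ⟨Y, hY⟩ := Set.mem_iUnion.1 ht
    obtain ⟨a1, a2, a3, a4, a5, -, a7⟩ := hY
    refine ⟨a1, a2, a3, a4, a5, ?_, a7⟩
    rw [← Real.sqrt_eq_rpow]
    exact Real.le_sqrt_of_sq_le htX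
  refine ⟨hfin.subset hsub, ?_⟩
  have h4 : ({t | t ∈ All B lam ∧ height t ^ 2 ≤ X}.ncard : ℝ) ≤ ((Exc B lam (X ^ (1 / 2 : ℝ))).ncard : ℝ) := by
    exact_mod_cast Set.ncard_le_ncard hsub hfin
  refine (h4.trans hcard).trans (le_of_eq ?_)
  rw [← Real.rpow_mul hX0.le]
  congr 2
  have h5 : min (8 * lam / 7) (12 / 11 : ℝ) = 2 * min (4 * lam / 7) (6 / 11) := by
    rw [mul_min_of_nonneg _ _ (by norm_num : (0 : ℝ) ≤ 2)]
    congr 1
    · ring
    · norm_num
  rw [h5]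
  unfold expo
  ring

/-- **Theorem.** Let `v ≥ 1` be a sequence of exponent of convergence at most `τ ≥ 0`, `θ < 1` and `λ > 0`. There is a set
`E` of Hausdorff dimension at most `(expo λ + τ) / (1 - θ)`, `expo λ = min (4 λ / 7) (6 / 11) + max (λ - 1) 0`, such that
for each `α > 0` outside `E` and each `B`, for all but finitely many `n`, ALL coprime triples `a + b = c` of nonzero
Gaussian integers with `|H ^ 2 - α v_n| ≤ v_n ^ θ`, `H = max (|a|, |b|, |c|)`, have `rad (abc) > B H ^ λ`. The sequences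
`v_n = (n + 1) ^ a` and `v_n = b ^ n` have exponent of convergence at most `1 / a` and `0`. -/
theorem result :
    (∀ (v : ℕ → ℝ) (τ θ lam : ℝ), (∀ n, 1 ≤ v n) → 0 ≤ τ → ExpLe v τ → θ < 1 → 0 < lam →
      ∃ E : Set ℝ, dimH E ≤ ENNReal.ofReal ((expo lam + τ) / (1 - θ)) ∧
        ∀ α : ℝ, 0 < α → α ∉ E → ∀ B : ℝ, ∃ n₀ : ℕ, ∀ n : ℕ, n₀ ≤ n → ∀ a b c : GaussianInt,
          a ≠ 0 → b ≠ 0 → c ≠ 0 → a + b = c → IsCoprime a b → |height (a, b, c) ^ 2 - α * v n| ≤ (v n) ^ θ →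
            ∀ S : Finset GaussianInt, IsPrimeSystem S (a * b * c) →
              B * height (a, b, c) ^ lam < ∏ Q ∈ S, ‖GaussianInt.toComplex Q‖) ∧
    (∀ a : ℝ, 0 < a → ExpLe (fun n : ℕ => ((n : ℝ) + 1) ^ a) (1 / a)) ∧
    (∀ b : ℝ, 1 < b → ExpLe (fun n : ℕ => b ^ n) 0) := by
  refine ⟨fun v τ θ lam hv hτ hE hθ1 hlam => ?_, fun κ hκ => Pool.Agent.Y854.GM.expLe_pow κ hκ,
    fun b hb => Pool.Agent.Y854.GM.expLe_geom b hb⟩
  have hs : 0 ≤ expo lam := add_nonneg (le_min (by positivity) (by norm_num)) (le_max_right _ _)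
  have hall : ∀ k : ℕ, ∃ E : Set ℝ, dimH E ≤ ENNReal.ofReal ((expo lam + τ) / (1 - θ)) ∧
      ∀ α : ℝ, 0 < α → α ∉ E → ∃ n0 : ℕ, ∀ n : ℕ, n0 ≤ n → ∀ t ∈ All (k : ℝ) lam,
        (v n) ^ θ < |height t ^ 2 - α * v n| := fun k =>
    Pool.Agent.Y854.GM.windows (All (k : ℝ) lam) (fun t => height t ^ 2) hv hτ hE hs hθ1
      (fun ε hε => count k lam ε hlam hε)
  choose E hE1 hE2 using hall
  refine ⟨⋃ k, E k, ?_, fun α hα hαE B => ?_⟩
  · rw [dimH_iUnion]
    exact iSup_le hE1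
  · obtain ⟨k, hk⟩ := exists_nat_ge B
    obtain ⟨n₀, hn⟩ := hE2 k α hα (fun h => hαE (Set.mem_iUnion.2 ⟨k, h⟩))
    refine ⟨n₀, fun n hn1 a b c ha hb hc habc hcop hw S hS => ?_⟩
    by_contra hcon
    push Not at hcon
    have hpos : 0 ≤ height (a, b, c) := (norm_nonneg _).trans (le_max_left _ _)
    refine absurd (hn n hn1 (a, b, c) (Set.mem_iUnion.2 ⟨height (a, b, c), ha, hb, hc, habc, hcop, le_refl _, S, hS,
      hcon.trans ?_⟩)) (not_lt.2 hw)
    exact mul_le_mul_of_nonneg_right hk (Real.rpow_nonneg hpos _)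

end Pool.Agent.Results.MP_dc323a_nt.WindowsWithoutExceptions
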